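import Pool.Agent.W707.HM.Stm

/-! # The point `0` (part HM-ZER) -/

set_option autoImplicit false

namespace Pool.Agent.W962.HM.Zer

open MeasureTheory Set Filter Topology
open Pool.Agent.W488.IW (V Idx gd box dz dzb)
open Pool.Agent.W360.BQ (QCF)
open Pool.Agent.W707.HM

lemma cont_ek (k : Idx) : Continuous (Pool.Agent.W488.IW.ek k) := by
  unfold Pool.Agent.W488.IW.ek
  fun_prop

lemma cont_gd (Λ : Finset Idx) (c : Idx → ℂ) : Continuous (gd Λ c) := by
  unfold Pool.Agent.W488.IW.gd Pool.Agent.W488.IW.tp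
  have := cont_ek
  fun_prop

theorem main : S_ZER := by
  intro w hw h N c
  have hg := cont_gd (box N) c
  have hG : Continuous (fun F0 : ℂ × ℂ => ∫ x in Icc (0 : V) 1, w (F0 + gd (box N) c x)) := by
    refine continuous_parametric_integral_of_continuous
      (f := fun (F0 : ℂ × ℂ) (x : V) => w (F0 + gd (box N) c x)) ?_ isCompact_Icc
    exact hw.comp (continuous_fst.add (hg.comp continuous_snd))
  have hcl : IsClosed {F0 : ℂ × ℂ | w F0 ≤ ∫ x in Icc (0 : V) 1, w (F0 + gd (box N) c x)} :=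
    isClosed_le hw hG
  have : NeBot (𝓝[≠] (0 : ℂ × ℂ)) := Module.punctured_nhds_neBot ℝ (ℂ × ℂ) 0
  have hd : Dense ({(0 : ℂ × ℂ)}ᶜ) := dense_compl_singleton _
  have hsub : ({(0 : ℂ × ℂ)}ᶜ : Set (ℂ × ℂ)) ⊆
      {F0 : ℂ × ℂ | w F0 ≤ ∫ x in Icc (0 : V) 1, w (F0 + gd (box N) c x)} := fun F0 hF => h F0 hF N c
  exact hcl.closure_subset_iff.2 hsub (hd 0)

end Pool.Agent.W962.HM.Zer
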